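import Pool.Agent.Helper24.RT.R2of
import Pool.Agent.Helper18.RT.C1
import Pool.Agent.Helper93.RT.C2
import Pool.Agent.Helper3.RT.C3

/-!
# RT-C4: a family of sectors at height `U`
-/

open MeasureTheory Real Set Filter Topology

set_option autoImplicit false

namespace Pool.Agent.Helper60.RT

open Pool.Agent.Helper22.AE
open Pool.Agent.Helper92.GC (dt tp Tq uu tt arc dd sqa m6)
open Pool.Agent.Helper92.DT (m12 IsMul12 m12_nonneg)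
open Pool.Agent.Helper60.LT (Fr Tf xf yf df vf fr ac co Cut BB)
open Pool.Agent.Helper60.QL (R3 nm pA xA sA TA Cone)

theorem r2 {e : Fr} (he : 0 < df e) {ε B β : ℝ} (hε : 0 < ε) (hB : 1 ≤ B) (hβ : 1 ≤ β) : ∃ C : ℝ, 1 ≤ C ∧
    ∀ (ι : Type) (P : Finset ι) (I : ι → Finset (ℤ × ℤ)) (n : ι → ℤ × ℤ) (X U σ : ℝ) (N : ℕ), 1 ≤ X → 1 ≤ N → (N : ℝ) ≤ X → 1 ≤ U → 0 < σ → σ ≤ β →
      (∀ p ∈ P, Pr (n p) ∧ U ≤ β * (n p).1 ∧ ((n p).1 : ℝ) ≤ β * U ∧ |sp (n p)| ≤ β ∧ σ ≤ |l1 e (sp (n p)) * l2 e (sp (n p))|) →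
      (∀ p ∈ P, Cut β (I p) ∧ I p ⊆ cn N ∧ ∀ k ∈ I p, ((n p).1 : ℝ) ^ 2 * |tt 0 k - sp (n p)| ≤ 2 ∧ |tt 0 k - sp (n p)| ^ 4 * (X * N) ≤ β) →
      (∀ v : ℤ × ℤ, ((P.filter (fun p => n p = v)).card : ℝ) ≤ β) →
        ∑ p ∈ P, RI e B X (I p) ≤ ENNReal.ofReal (C * (X * N) ^ ε * (X / σ) * U ^ (-(10 : ℝ)) * BB N (X * N)) :=
  r2_of @to_state @push_sum @model he hε hB hβ

end Pool.Agent.Helper60.RT
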